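import Mathlib
import Pool.Agent.Helper18.EW.Goals

/-!
# EW packet GE: the special points exist
-/

set_option autoImplicit false

namespace Pool.Agent.Helper69.EW

open Finset Pool.Agent.Helper18.EW

/-- The state of the construction at the row `t` with `k` slopes. -/
structure St (μ b q τ J v M E : ℕ) (Γ : ℕ → ℕ) (k t : ℕ) (e P : ℕ → ℕ) : Prop where
  s1 : ∀ i < k, e i ≤ E ∧ E ≤ 2 * e i ∧ e i % M = 2 * (μ + 1) ^ i
  s2 : ∀ t', τ ≤ t' → t' ≤ t → Odd (P t')
  s3 : ∀ t', τ ≤ t' → t' < t → P (t' + 1) + E ≤ P t'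
  s4 : ∀ t', τ ≤ t' → t' ≤ t → ∑ i ∈ range k, (μ - P t' / e i) = Γ t'
  s5 : ∀ i < b, E < e i + M
  s6 : P τ ≤ μ * E + 1
  s7 : ∀ j, 1 ≤ j → (j + 1) * b ≤ k → ∀ i, j * b ≤ i → i < (j + 1) * b →
      ∀ t', τ ≤ t' → t' ≤ t → (P t' / e i < μ ↔ J ≤ t' + 2 ^ (q - j) * v)
  s8 : ∀ j, 1 ≤ j → (j + 1) * b ≤ k → J ≤ t + 2 ^ (q - j) * v

theorem exists_mod (M ρ lo : ℕ) (h : ρ < M) : ∃ e, lo < e ∧ e ≤ lo + M ∧ e % M = ρ := by
  refine ⟨ρ + M * ((lo + M - ρ) / M), ?_, ?_, ?_⟩
  · have h1 := Nat.div_add_mod (lo + M - ρ) M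
    have h2 := Nat.mod_lt (lo + M - ρ) (by omega : 0 < M)
    omega
  · have h1 := Nat.mul_div_le (lo + M - ρ) M
    omega
  · rw [Nat.add_mul_mod_self_left]
    exact Nat.mod_eq_of_lt h

theorem pow_lt (μ K i : ℕ) (hμ : 1 ≤ μ) (hi : i < K) (a : ℕ) (ha : a ≤ μ) :
    2 * (a * (μ + 1) ^ i) < 2 * (μ + 1) ^ (K + 1) := by
  have h1 : (μ + 1) ^ (i + 1) ≤ (μ + 1) ^ (K + 1) := Nat.pow_le_pow_right (by omega) (by omega)
  have h2 : 0 < (μ + 1) ^ i := by positivity
  have h3 : a * (μ + 1) ^ i ≤ μ * (μ + 1) ^ i := Nat.mul_le_mul_right _ ha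
  have h4 : (μ + 1) ^ (i + 1) = μ * (μ + 1) ^ i + (μ + 1) ^ i := by ring
  omega

theorem dist_aux (μ K : ℕ) (i j a c x y : ℕ) (hi : i < K) (hij : i < j) (_ha : 1 ≤ a)
    (haμ : a ≤ μ) (hc : 1 ≤ c) (hcμ : c ≤ μ) (hj : j < K)
    (hx : x % (2 * (μ + 1) ^ (K + 1)) = 2 * (μ + 1) ^ i)
    (hy : y % (2 * (μ + 1) ^ (K + 1)) = 2 * (μ + 1) ^ j) : a * x ≠ c * y := by
  intro h
  have hμ : 1 ≤ μ := by omega
  have h1 : (a * x) % (2 * (μ + 1) ^ (K + 1)) = 2 * (a * (μ + 1) ^ i) := by
    rw [← Nat.mul_mod_mod, hx]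
    rw [Nat.mod_eq_of_lt]
    · ring
    · have := pow_lt μ K i hμ hi a haμ
      calc a * (2 * (μ + 1) ^ i) = 2 * (a * (μ + 1) ^ i) := by ring
        _ < _ := this
  have h2 : (c * y) % (2 * (μ + 1) ^ (K + 1)) = 2 * (c * (μ + 1) ^ j) := by
    rw [← Nat.mul_mod_mod, hy]
    rw [Nat.mod_eq_of_lt]
    · ring
    · have := pow_lt μ K j hμ hj c hcμ
      calc c * (2 * (μ + 1) ^ j) = 2 * (c * (μ + 1) ^ j) := by ring
        _ < _ := this
  rw [h, h2] at h1
  have h3 : (μ + 1) ^ (i + 1) ≤ (μ + 1) ^ j := Nat.pow_le_pow_right (by omega) (by omega)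
  have h4 : 0 < (μ + 1) ^ i := by positivity
  have h5 : a * (μ + 1) ^ i ≤ μ * (μ + 1) ^ i := Nat.mul_le_mul_right _ haμ
  have h6 : (μ + 1) ^ j ≤ c * (μ + 1) ^ j := Nat.le_mul_of_pos_left _ (by omega)
  have h7 : (μ + 1) ^ (i + 1) = μ * (μ + 1) ^ i + (μ + 1) ^ i := by ring
  omega

theorem dist (μ K : ℕ) (i j a c x y : ℕ) (hi : i < K) (hj : j < K) (hij : i ≠ j) (ha : 1 ≤ a)
    (haμ : a ≤ μ) (hc : 1 ≤ c) (hcμ : c ≤ μ)
    (hx : x % (2 * (μ + 1) ^ (K + 1)) = 2 * (μ + 1) ^ i)
    (hy : y % (2 * (μ + 1) ^ (K + 1)) = 2 * (μ + 1) ^ j) : a * x ≠ c * y := by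
  rcases Nat.lt_or_gt_of_ne hij with h | h
  · exact dist_aux μ K i j a c x y hi h ha haμ hc hcμ hj hx hy
  · exact (dist_aux μ K j i c a y x hj h hc hcμ ha haμ hi hy hx).symm

theorem even_of_mod (μ K i x : ℕ) (hx : x % (2 * (μ + 1) ^ (K + 1)) = 2 * (μ + 1) ^ i) :
    2 ∣ x := by
  have h : (2 : ℕ) ∣ 2 * (μ + 1) ^ (K + 1) := Dvd.intro _ rfl
  rw [← Nat.dvd_mod_iff h, hx]
  exact Dvd.intro _ rfl

/-- The next value of `P`. -/
theorem step (hGA : GoalGA) {μ b q τ J v K M E : ℕ} {Γ : ℕ → ℕ} {k t : ℕ} {e P : ℕ → ℕ}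
    (hμ : 2 ≤ μ) (hM : M = 2 * (μ + 1) ^ (K + 1)) (hE : E = 16 * μ * M) (hkK : k ≤ K)
    (hst : St μ b q τ J v M E Γ k t e P) (hτt : τ ≤ t) (g : ℕ) (h1 : Γ t + 2 * k ≤ g)
    (h2 : g < k * μ) :
    ∃ p, Odd p ∧ p + E ≤ P t ∧ ∑ i ∈ range k, (μ - p / e i) = g := by
  have hMp : 0 < M := by rw [hM]; positivity
  have hEp : 0 < E := by rw [hE]; positivity
  have hEe : Even E := by rw [hE]; exact ⟨8 * μ * M, by ring⟩
  have hpos : ∀ i < k, 0 < e i := by
    intro i hi
    have := (hst.s1 i hi).2.1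
    omega
  have hEP : E ≤ P t := by
    by_contra h
    push Not at h
    have h3 : ∀ i ∈ range k, μ - 1 ≤ μ - P t / e i := by
      intro i hi
      rw [mem_range] at hi
      have h4 := (hst.s1 i hi).2.1
      have h5 : P t / e i < 2 := by
        rw [Nat.div_lt_iff_lt_mul (hpos i hi)]
        omega
      omega
    have h4 := Finset.sum_le_sum h3
    rw [hst.s4 t hτt le_rfl, Finset.sum_const, card_range, smul_eq_mul] at h4
    have h5 : k * μ = k * (μ - 1) + k := by
      obtain ⟨m, rfl⟩ : ∃ m, μ = m + 1 := ⟨μ - 1, by omega⟩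
      simp
      ring
    omega
  have hsum : ∑ i ∈ range k, (μ - (P t - E) / e i) ≤ g := by
    refine le_trans ?_ h1
    have h3 : ∀ i ∈ range k, μ - (P t - E) / e i ≤ (μ - P t / e i) + 2 := by
      intro i hi
      rw [mem_range] at hi
      have h4 := (hst.s1 i hi).2.1
      have h5 : P t / e i ≤ (P t - E) / e i + 2 := by
        have h6 : P t ≤ (P t - E) + 2 * e i := by omega
        have h7 := Nat.div_le_div_right (c := e i) h6
        rwa [Nat.add_mul_div_right _ _ (hpos i hi)] at h7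
      omega
    have h4 := Finset.sum_le_sum h3
    rw [Finset.sum_add_distrib, hst.s4 t hτt le_rfl, Finset.sum_const, card_range,
      smul_eq_mul] at h4
    omega
  obtain ⟨p, hp1, hp2, hp3⟩ := hGA μ k e (P t - E) g
    (fun i hi => ⟨hpos i hi, even_of_mod μ K i (e i) (hM ▸ (hst.s1 i hi).2.2)⟩)
    (fun i hi j hj hij a c ha haμ hc hcμ => dist μ K i j a c (e i) (e j) (by omega) (by omega)
      hij ha haμ hc hcμ (hM ▸ (hst.s1 i hi).2.2) (hM ▸ (hst.s1 j hj).2.2))
    (Nat.Odd.sub_even hEP (hst.s2 t hτt le_rfl) hEe) hsum h2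
  exact ⟨p, hp1, by omega, hp3⟩

theorem anti {μ b q τ J v M E : ℕ} {Γ : ℕ → ℕ} {k t : ℕ} {e P : ℕ → ℕ}
    (hst : St μ b q τ J v M E Γ k t e P) (n t' : ℕ) : t' + n = t → τ ≤ t' →
    P t ≤ P t' := by
  induction n generalizing t' with
  | zero =>
    intro h1 _
    have : t' = t := by omega
    rw [this]
  | succ n ih =>
    intro h1 h2
    have h4 := ih (t' + 1) (by omega) (by omega)
    have h5 := hst.s3 t' h2 (by omega)
    omega

theorem run (hGA : GoalGA) {μ b q τ J v K M E : ℕ} {Γ : ℕ → ℕ} {k : ℕ}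
    (hμ : 2 ≤ μ) (hM : M = 2 * (μ + 1) ^ (K + 1)) (hE : E = 16 * μ * M) (hkK : k ≤ K)
    {t : ℕ} {e P : ℕ → ℕ}
    (hst : St μ b q τ J v M E Γ k t e P) (hτt : τ ≤ t) (hg : Γ t + 4 * K ≤ Γ (t + 1))
    (hlt : Γ (t + 1) < k * μ) :
    ∃ P', St μ b q τ J v M E Γ k (t + 1) e P' := by
  obtain ⟨p, hp1, hp2, hp3⟩ := step hGA hμ hM hE hkK hst hτt (Γ (t + 1)) (by omega) hlt
  have hP : ∀ x, x ≤ t → (if x = t + 1 then p else P x) = P x := by
    intro x hx
    rw [if_neg (by omega)]
  refine ⟨fun x => if x = t + 1 then p else P x, ?_⟩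
  refine ⟨hst.s1, ?_, ?_, ?_, hst.s5, ?_, ?_, ?_⟩
  · intro t' h1 h2
    rcases Nat.lt_or_ge t t' with h3 | h3
    · have : t' = t + 1 := by omega
      simp only [this, if_true]
      exact hp1
    · simp only [hP t' h3]
      exact hst.s2 t' h1 h3
  · intro t' h1 h2
    rcases Nat.lt_or_ge t' t with h3 | h3
    · simp only [hP t' h3.le, hP (t' + 1) h3]
      exact hst.s3 t' h1 h3
    · have : t' = t := by omega
      subst this
      simp only [hP t' le_rfl, if_true]
      exact hp2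
  · intro t' h1 h2
    rcases Nat.lt_or_ge t t' with h3 | h3
    · have : t' = t + 1 := by omega
      simp only [this, if_true]
      exact hp3
    · simp only [hP t' h3]
      exact hst.s4 t' h1 h3
  · simp only [hP τ hτt]
    exact hst.s6
  · intro j hj hjk i hi1 hi2 t' h1 h2
    rcases Nat.lt_or_ge t t' with h3 | h3
    · have : t' = t + 1 := by omega
      simp only [this, if_true]
      have h8 := hst.s8 j hj hjk
      have h7 := (hst.s7 j hj hjk i hi1 hi2 t hτt le_rfl).2 h8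
      have h9 : p / e i ≤ P t / e i := Nat.div_le_div_right (by omega)
      constructor
      · intro _
        omega
      · intro _
        omega
    · simp only [hP t' h3]
      exact hst.s7 j hj hjk i hi1 hi2 t' h1 h3
  · intro j hj hjk
    have := hst.s8 j hj hjk
    omega

theorem runs (hGA : GoalGA) {μ b q τ J v K M E : ℕ} {Γ : ℕ → ℕ} {k : ℕ}
    (hμ : 2 ≤ μ) (hM : M = 2 * (μ + 1) ^ (K + 1)) (hE : E = 16 * μ * M) (hkK : k ≤ K)
    {t : ℕ} {e : ℕ → ℕ} (hτt : τ ≤ t) (n : ℕ)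
    (hg : ∀ x, t ≤ x → x < t + n → Γ x + 4 * K ≤ Γ (x + 1) ∧ Γ (x + 1) < k * μ) :
    (∃ P, St μ b q τ J v M E Γ k t e P) → ∃ P, St μ b q τ J v M E Γ k (t + n) e P := by
  induction n with
  | zero => intro h; simpa using h
  | succ n ih =>
    intro h
    obtain ⟨P, hP⟩ := ih (fun x h1 h2 => hg x h1 (by omega)) h
    obtain ⟨h1, h2⟩ := hg (t + n) (by omega) (by omega)
    have h3 : τ ≤ t + n := by omega
    exact run hGA hμ hM hE hkK hP h3 h1 h2

theorem start (hGA : GoalGA) {μ b q τ J v K M E : ℕ} {Γ : ℕ → ℕ} {j : ℕ}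
    (hμ : 2 ≤ μ) (hb : 1 ≤ b) (hM : M = 2 * (μ + 1) ^ (K + 1)) (hE : E = 16 * μ * M)
    (hj : 1 ≤ j) (hkK : (j + 1) * b ≤ K)
    {t : ℕ} {e P : ℕ → ℕ}
    (hst : St μ b q τ J v M E Γ (j * b) t e P) (hτt : τ + 1 ≤ t)
    (htJ : t + 1 + 2 ^ (q - j) * v = J)
    (hg : Γ t + 4 * K ≤ Γ (t + 1)) (hlt : 4 * Γ (t + 1) ≤ b * μ) :
    ∃ e' P', St μ b q τ J v M E Γ ((j + 1) * b) (t + 1) e' P' := by
  have hjb : (j + 1) * b = j * b + b := by ring
  have hbj : b ≤ j * b := Nat.le_mul_of_pos_left _ (by omega)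
  have hMp : 0 < M := by rw [hM]; positivity
  have hEp : 0 < E := by rw [hE]; positivity
  have hbm : b * μ ≤ j * b * μ := Nat.mul_le_mul_right _ hbj
  have hbmp : 0 < b * μ := Nat.mul_pos (by omega) (by omega)
  obtain ⟨p, hp1, hp2, hp3⟩ := step hGA hμ hM hE (by omega) hst (by omega) (Γ (t + 1) - b)
    (by omega) (by omega)
  have hpos : ∀ i < j * b, 0 < e i := by
    intro i hi
    have := (hst.s1 i hi).2.1
    omega
  -- lower bound for `p`
  have hlow : μ * E ≤ 2 * p := by
    have h1 : ∑ i ∈ range b, (μ - p / e i) ≤ Γ (t + 1) - b := by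
      rw [← hp3]
      apply Finset.sum_le_sum_of_subset
      intro i hi
      rw [mem_range] at hi ⊢
      omega
    have h2 : ∃ i < b, 3 * μ ≤ 4 * (p / e i) := by
      by_contra h
      push Not at h
      have h3 : ∀ i ∈ range b, μ + 1 ≤ 4 * (μ - p / e i) := by
        intro i hi
        rw [mem_range] at hi
        have := h i hi
        omega
      have h4 := Finset.sum_le_sum h3
      rw [← Finset.mul_sum, Finset.sum_const, card_range, smul_eq_mul] at h4
      have h5 : b * (μ + 1) = b * μ + b := by ring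
      omega
    obtain ⟨i, hi, h3⟩ := h2
    have h4 : p / e i * e i ≤ p := Nat.div_mul_le_self _ _
    have h5 := hst.s5 i hi
    have h6 : 3 * μ * e i ≤ 4 * p := by
      calc 3 * μ * e i ≤ 4 * (p / e i) * e i := Nat.mul_le_mul_right _ h3
        _ = 4 * (p / e i * e i) := by ring
        _ ≤ 4 * p := by omega
    have h7 : 3 * M ≤ E := by
      rw [hE]
      nlinarith
    have h8 : 2 * E ≤ 3 * e i := by omega
    have h9 : μ * (2 * E) ≤ μ * (3 * e i) := Nat.mul_le_mul_left _ h8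
    have h10 : μ * (3 * e i) = 3 * μ * e i := by ring
    have h11 : μ * (2 * E) = 2 * (μ * E) := by ring
    omega
  -- upper bound for `p`
  have hup : p ≤ (μ - 1) * E := by
    have h1 : P (τ + 1) + E ≤ P τ := hst.s3 τ le_rfl (by omega)
    have h2 : P t ≤ P (τ + 1) := anti hst (t - (τ + 1)) (τ + 1) (by omega) (by omega)
    have h3 := hst.s6
    have h4 : μ * E = (μ - 1) * E + E := by
      obtain ⟨m, rfl⟩ : ∃ m, μ = m + 1 := ⟨μ - 1, by omega⟩
      simp
      ring
    omega
  -- the new slopes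
  have hdiv : μ * (p / μ) ≤ p := Nat.mul_div_le _ _
  have hdiv2 : p < μ * (p / μ) + μ := by
    have h1 := Nat.div_add_mod p μ
    have h2 := Nat.mod_lt p (by omega : 0 < μ)
    omega
  have hE2 : E = 2 * (8 * μ * M) := by rw [hE]; ring
  have hlo : 8 * μ * M ≤ p / μ := by
    rw [Nat.le_div_iff_mul_le (by omega)]
    rw [hE2] at hlow
    have : μ * (2 * (8 * μ * M)) = 2 * (8 * μ * M * μ) := by ring
    omega
  have hnew : ∀ i, ∃ f, i < K → p / μ < f ∧ f ≤ p / μ + M ∧ f % M = 2 * (μ + 1) ^ i := by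
    intro i
    by_cases hi : i < K
    · have h1 : 2 * (μ + 1) ^ i < M := by
        have := pow_lt μ K i (by omega) hi 1 (by omega)
        rw [hM]
        simpa using this
      obtain ⟨f, hf1, hf2, hf3⟩ := exists_mod M _ (p / μ) h1
      exact ⟨f, fun _ => ⟨hf1, hf2, hf3⟩⟩
    · exact ⟨0, fun h => absurd h hi⟩
  choose f hf using hnew
  have hf4 : ∀ i < K, (μ - 1) * f i ≤ p ∧ p < μ * f i ∧ f i ≤ E ∧ E ≤ 2 * f i := by
    intro i hi
    obtain ⟨h1, h2, h3⟩ := hf i hi
    have h4 : (μ - 1) * f i ≤ p := by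
      have h5 : (μ - 1) * f i ≤ (μ - 1) * (p / μ + M) := Nat.mul_le_mul_left _ h2
      have h6 : (μ - 1) * (p / μ + M) = (μ - 1) * (p / μ) + (μ - 1) * M := by ring
      have h7 : μ * (p / μ) = (μ - 1) * (p / μ) + p / μ := by
        obtain ⟨m, rfl⟩ : ∃ m, μ = m + 1 := ⟨μ - 1, by omega⟩
        simp
        ring
      have h8 : (μ - 1) * M ≤ 8 * μ * M := by
        apply Nat.mul_le_mul_right
        omega
      omega
    have h5 : p < μ * f i := by
      have h6 : μ * (p / μ + 1) ≤ μ * f i := Nat.mul_le_mul_left _ h1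
      have h7 : μ * (p / μ + 1) = μ * (p / μ) + μ := by ring
      omega
    refine ⟨h4, h5, ?_, ?_⟩
    · have h6 : (μ - 1) * f i ≤ (μ - 1) * E := le_trans h4 hup
      exact Nat.le_of_mul_le_mul_left h6 (by omega)
    · omega
  have he1 : ∀ i, i < j * b → (if i < j * b then e i else f i) = e i := fun i hi => if_pos hi
  have he2 : ∀ i, j * b ≤ i → (if i < j * b then e i else f i) = f i := fun i hi =>
    if_neg (by omega)
  have hP : ∀ x, x ≤ t → (if x = t + 1 then p else P x) = P x := by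
    intro x hx
    rw [if_neg (by omega)]
  have hold : ∀ i, j * b ≤ i → i < K → ∀ t', τ ≤ t' → t' ≤ t → μ ≤ P t' / f i := by
    intro i hi1 hi2 t' h1 h2
    obtain ⟨h3, h4, h5, h6⟩ := hf4 i hi2
    rw [Nat.le_div_iff_mul_le (by omega)]
    have h7 : P t ≤ P t' := anti hst (t - t') t' (by omega) h1
    have h8 : μ * f i = (μ - 1) * f i + f i := by
      obtain ⟨m, rfl⟩ : ∃ m, μ = m + 1 := ⟨μ - 1, by omega⟩
      simp
      ring
    omega
  have hnewv : ∀ i, j * b ≤ i → i < K → p / f i = μ - 1 := by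
    intro i hi1 hi2
    obtain ⟨h3, h4, h5, h6⟩ := hf4 i hi2
    apply Nat.div_eq_of_lt_le
    · exact h3
    · have : (μ - 1 + 1) = μ := by omega
      rw [this]
      exact h4
  refine ⟨fun i => if i < j * b then e i else f i, fun x => if x = t + 1 then p else P x, ?_⟩
  refine ⟨?_, ?_, ?_, ?_, ?_, ?_, ?_, ?_⟩
  · intro i hi
    rcases Nat.lt_or_ge i (j * b) with h | h
    · simp only [he1 i h]
      exact hst.s1 i h
    · simp only [he2 i h]
      have h1 := hf4 i (by omega)
      have h2 := hf i (by omega)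
      exact ⟨h1.2.2.1, h1.2.2.2, h2.2.2⟩
  · intro t' h1 h2
    rcases Nat.lt_or_ge t t' with h3 | h3
    · have : t' = t + 1 := by omega
      simp only [this, if_true]
      exact hp1
    · simp only [hP t' h3]
      exact hst.s2 t' h1 h3
  · intro t' h1 h2
    rcases Nat.lt_or_ge t' t with h3 | h3
    · simp only [hP t' h3.le, hP (t' + 1) h3]
      exact hst.s3 t' h1 h3
    · have : t' = t := by omega
      subst this
      simp only [hP t' le_rfl, if_true]
      exact hp2
  · intro t' h1 h2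
    have hsplit : ∀ F : ℕ → ℕ, ∑ i ∈ range ((j + 1) * b), F i =
        ∑ i ∈ range (j * b), F i + ∑ i ∈ Ico (j * b) ((j + 1) * b), F i := by
      intro F
      rw [Finset.sum_range_add_sum_Ico]
      omega
    rw [hsplit]
    rcases Nat.lt_or_ge t t' with h3 | h3
    · have : t' = t + 1 := by omega
      subst this
      have h4 : ∑ i ∈ range (j * b), (μ - (if t + 1 = t + 1 then p else P (t + 1)) /
          (if i < j * b then e i else f i)) = Γ (t + 1) - b := by
        rw [← hp3]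
        apply Finset.sum_congr rfl
        intro i hi
        rw [mem_range] at hi
        rw [he1 i hi, if_pos rfl]
      have h5 : ∑ i ∈ Ico (j * b) ((j + 1) * b), (μ - (if t + 1 = t + 1 then p else P (t + 1)) /
          (if i < j * b then e i else f i)) = b := by
        have h6 : ∀ i ∈ Ico (j * b) ((j + 1) * b), (μ - (if t + 1 = t + 1 then p else P (t + 1)) /
          (if i < j * b then e i else f i)) = 1 := by
          intro i hi
          rw [mem_Ico] at hi
          rw [he2 i hi.1, if_pos rfl, hnewv i hi.1 (by omega)]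
          omega
        rw [Finset.sum_congr rfl h6, Finset.sum_const, Nat.card_Ico, smul_eq_mul, mul_one]
        omega
      rw [h4, h5]
      omega
    · have h4 : ∑ i ∈ range (j * b), (μ - (if t' = t + 1 then p else P t') /
          (if i < j * b then e i else f i)) = Γ t' := by
        rw [← hst.s4 t' h1 h3]
        apply Finset.sum_congr rfl
        intro i hi
        rw [mem_range] at hi
        rw [he1 i hi, hP t' h3]
      have h5 : ∑ i ∈ Ico (j * b) ((j + 1) * b), (μ - (if t' = t + 1 then p else P t') /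
          (if i < j * b then e i else f i)) = 0 := by
        apply Finset.sum_eq_zero
        intro i hi
        rw [mem_Ico] at hi
        rw [he2 i hi.1, hP t' h3]
        have := hold i hi.1 (by omega) t' h1 h3
        omega
      rw [h4, h5]
      omega
  · intro i hi
    simp only [he1 i (by omega)]
    exact hst.s5 i hi
  · simp only [hP τ (by omega)]
    exact hst.s6
  · intro j' hj' hjk i hi1 hi2 t' h1 h2
    have hj'j : j' ≤ j := by
      by_contra h
      push Not at h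
      have h3 : (j + 2) * b ≤ (j' + 1) * b := Nat.mul_le_mul_right _ (by omega)
      have h4 : (j + 2) * b = (j + 1) * b + b := by ring
      omega
    rcases Nat.lt_or_ge j' j with hlt' | hge
    · have hle : (j' + 1) * b ≤ j * b := Nat.mul_le_mul_right _ hlt'
      have hi3 : i < j * b := by omega
      simp only [he1 i hi3]
      rcases Nat.lt_or_ge t t' with h3 | h3
      · have : t' = t + 1 := by omega
        simp only [this, if_true]
        have h8 := hst.s8 j' hj' hle
        have h7 := (hst.s7 j' hj' hle i hi1 hi2 t (by omega) le_rfl).2 h8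
        have h9 : p / e i ≤ P t / e i := Nat.div_le_div_right (by omega)
        constructor
        · intro _
          omega
        · intro _
          omega
      · simp only [hP t' h3]
        exact hst.s7 j' hj' hle i hi1 hi2 t' h1 h3
    · have hjj : j' = j := by omega
      subst hjj
      simp only [he2 i hi1]
      rcases Nat.lt_or_ge t t' with h3 | h3
      · have : t' = t + 1 := by omega
        simp only [this, if_true]
        rw [hnewv i hi1 (by omega)]
        constructor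
        · intro _
          omega
        · intro _
          omega
      · simp only [hP t' h3]
        have := hold i hi1 (by omega) t' h1 h3
        constructor
        · intro _
          omega
        · intro _
          omega
  · intro j' hj' hjk
    have hj'j : j' ≤ j := by
      by_contra h
      push Not at h
      have h3 : (j + 2) * b ≤ (j' + 1) * b := Nat.mul_le_mul_right _ (by omega)
      have h4 : (j + 2) * b = (j + 1) * b + b := by ring
      omega
    rcases Nat.lt_or_ge j' j with hlt' | hge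
    · have hle : (j' + 1) * b ≤ j * b := Nat.mul_le_mul_right _ hlt'
      have := hst.s8 j' hj' hle
      omega
    · have hjj : j' = j := by omega
      subst hjj
      omega

theorem init (hGA : GoalGA) {μ b q τ J v K M E : ℕ} {Γ : ℕ → ℕ}
    (hμ : 2 ≤ μ) (hb : 1 ≤ b) (hM : M = 2 * (μ + 1) ^ (K + 1)) (hE : E = 16 * μ * M)
    (hbK : b ≤ K) (hlt : Γ τ < b * μ) :
    ∃ e P, St μ b q τ J v M E Γ b τ e P := by
  have hMp : 0 < M := by rw [hM]; positivity
  have hME : 32 * M ≤ E := by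
    rw [hE]
    have : 2 * (16 * M) ≤ μ * (16 * M) := Nat.mul_le_mul_right _ hμ
    nlinarith
  have hnew : ∀ i, ∃ f, i < K → E - M < f ∧ f ≤ E - M + M ∧ f % M = 2 * (μ + 1) ^ i := by
    intro i
    by_cases hi : i < K
    · have h1 : 2 * (μ + 1) ^ i < M := by
        have := pow_lt μ K i (by omega) hi 1 (by omega)
        rw [hM]
        simpa using this
      obtain ⟨f, hf1, hf2, hf3⟩ := exists_mod M _ (E - M) h1
      exact ⟨f, fun _ => ⟨hf1, hf2, hf3⟩⟩
    · exact ⟨0, fun h => absurd h hi⟩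
  choose f hf using hnew
  have hf2 : ∀ i < b, 0 < f i ∧ f i ≤ E ∧ E ≤ 2 * f i ∧ E < f i + M ∧
      f i % M = 2 * (μ + 1) ^ i := by
    intro i hi
    have := hf i (by omega)
    refine ⟨?_, ?_, ?_, ?_, this.2.2⟩ <;> omega
  have hEe : Even E := by rw [hE]; exact ⟨8 * μ * M, by ring⟩
  have hodd : Odd (μ * E + 1) := Even.add_one (Even.mul_left hEe μ)
  have hsum : ∑ i ∈ range b, (μ - (μ * E + 1) / f i) ≤ Γ τ := by
    have : ∑ i ∈ range b, (μ - (μ * E + 1) / f i) = 0 := by
      apply Finset.sum_eq_zero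
      intro i hi
      rw [mem_range] at hi
      obtain ⟨h1, h2, _⟩ := hf2 i hi
      have h3 : μ ≤ (μ * E + 1) / f i := by
        rw [Nat.le_div_iff_mul_le h1]
        have := Nat.mul_le_mul_left μ h2
        omega
      omega
    omega
  obtain ⟨p, hp1, hp2, hp3⟩ := hGA μ b f (μ * E + 1) (Γ τ)
    (fun i hi => ⟨(hf2 i hi).1, even_of_mod μ K i (f i) (hM ▸ (hf2 i hi).2.2.2.2)⟩)
    (fun i hi j hj hij a c ha haμ hc hcμ => dist μ K i j a c (f i) (f j) (by omega) (by omega)
      hij ha haμ hc hcμ (hM ▸ (hf2 i hi).2.2.2.2) (hM ▸ (hf2 j hj).2.2.2.2))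
    hodd hsum hlt
  refine ⟨f, fun _ => p, ?_⟩
  refine ⟨?_, ?_, ?_, ?_, ?_, ?_, ?_, ?_⟩
  · intro i hi
    obtain ⟨h1, h2, h3, h4, h5⟩ := hf2 i hi
    exact ⟨h2, h3, h5⟩
  · intro _ _ _
    exact hp1
  · intro t' h1 h2
    omega
  · intro t' h1 h2
    have : t' = τ := by omega
    rw [this]
    exact hp3
  · intro i hi
    exact (hf2 i hi).2.2.2.1
  · exact hp2
  · intro j hj hjk
    exfalso
    have : 2 * b ≤ (j + 1) * b := Nat.mul_le_mul_right _ (by omega)
    omega
  · intro j hj hjk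
    exfalso
    have : 2 * b ≤ (j + 1) * b := Nat.mul_le_mul_right _ (by omega)
    omega

theorem goalGE (hGA : GoalGA) : GoalGE := by
  intro μ b q τ J S v Γ hμ hb hv hτJ hJS hr hg hS hJ
  obtain ⟨K, hK⟩ : ∃ K, K = b * (q + 1) := ⟨_, rfl⟩
  rw [← hK] at hg hS ⊢
  obtain ⟨M, hM⟩ : ∃ M, M = 2 * (μ + 1) ^ (K + 1) := ⟨_, rfl⟩
  obtain ⟨E, hE⟩ : ∃ E, E = 16 * μ * M := ⟨_, rfl⟩
  have hbK : b ≤ K := by rw [hK]; exact Nat.le_mul_of_pos_right _ (by omega)
  have hKp : 1 ≤ K := by omega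
  have hbm : b * μ ≤ K * μ := Nat.mul_le_mul_right _ hbK
  have hbmp : 0 < b * μ := Nat.mul_pos (by omega) (by omega)
  have hMp : 0 < M := by rw [hM]; positivity
  have hEp : 0 < E := by rw [hE]; positivity
  -- monotone
  have hmono : ∀ n t, τ ≤ t → t + n ≤ S → Γ t ≤ Γ (t + n) := by
    intro n
    induction n with
    | zero => intro t _ _; simp
    | succ n ih =>
      intro t h1 h2
      have h3 := ih t h1 (by omega)
      have h4 := hg (t + n) (by omega) (by omega)
      have : t + (n + 1) = t + n + 1 := by ring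
      rw [this]
      omega
  have hmono2 : ∀ t t', τ ≤ t → t ≤ t' → t' ≤ S → Γ t ≤ Γ t' := by
    intro t t' h1 h2 h3
    have := hmono (t' - t) t h1 (by omega)
    rwa [show t + (t' - t) = t' by omega] at this
  -- the row `s`
  have hex : ∃ s, τ ≤ s ∧ K * μ ≤ Γ s := ⟨S, by omega, hS⟩
  classical
  obtain ⟨s, hs1, hs2, hs3⟩ : ∃ s, (τ ≤ s ∧ K * μ ≤ Γ s) ∧ s ≤ S ∧
      ∀ t, τ ≤ t → t < s → Γ t < K * μ := by
    refine ⟨Nat.find hex, Nat.find_spec hex, Nat.find_min' hex ⟨by omega, hS⟩, ?_⟩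
    intro t h1 h2
    have := Nat.find_min hex h2
    push Not at this
    exact this h1
  have hJs : J < s := by
    by_contra h
    push Not at h
    have := hmono2 s J hs1.1 h (by omega)
    have := hs1.2
    omega
  -- the starts
  have key : ∀ j, j ≤ q → ∃ e P t, St μ b q τ J v M E Γ ((j + 1) * b) t e P ∧ τ ≤ t ∧
      (j = 0 → t = τ) ∧ (1 ≤ j → t + 2 ^ (q - j) * v = J) := by
    intro j
    induction j with
    | zero =>
      intro _
      obtain ⟨e, P, h⟩ := init (J := J) (q := q) (v := v) hGA hμ hb hM hE hbK (Γ := Γ) (τ := τ)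
        (by
          have := hmono2 τ J le_rfl hτJ.le (by omega)
          omega)
      refine ⟨e, P, τ, ?_, le_rfl, fun _ => rfl, fun h => absurd h (by omega)⟩
      simpa using h
    | succ j ih =>
      intro hjq
      obtain ⟨e, P, t, hst, hτt, h0, h1⟩ := ih (by omega)
      have hrj := hr (j + 1) (by omega) hjq
      obtain ⟨r, hr2⟩ : ∃ r, r + 1 + 2 ^ (q - (j + 1)) * v = J :=
        ⟨J - 2 ^ (q - (j + 1)) * v - 1, by omega⟩
      have hpow : 1 ≤ 2 ^ (q - (j + 1)) * v := Nat.mul_pos (by positivity) (by omega)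
      have htr : t ≤ r := by
        rcases Nat.eq_zero_or_pos j with hj0 | hj0
        · have := h0 hj0
          omega
        · have h2 := h1 hj0
          have h3 : q - j = q - (j + 1) + 1 := by omega
          rw [h3, pow_succ] at h2
          have h4 : 2 ^ (q - (j + 1)) * 2 * v = 2 ^ (q - (j + 1)) * v + 2 ^ (q - (j + 1)) * v := by
            ring
          omega
      have hjK : (j + 2) * b ≤ K := by
        rw [hK, mul_comm b]
        exact Nat.mul_le_mul_right _ (by omega)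
      have hjK2 : (j + 2) * b = (j + 1) * b + b := by ring
      have hjb : b ≤ (j + 1) * b := Nat.le_mul_of_pos_left _ (by omega)
      have hjbm : b * μ ≤ (j + 1) * b * μ := Nat.mul_le_mul_right _ hjb
      have hrun := runs hGA hμ hM hE (K := K) (k := (j + 1) * b) (by omega) hτt (r - t)
        (fun x hx1 hx2 => ⟨hg x (by omega) (by omega), by
          have h5 := hmono2 (x + 1) J (by omega) (by omega) (by omega)
          omega⟩) ⟨P, hst⟩
      rw [show t + (r - t) = r by omega] at hrun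
      obtain ⟨P2, hP2⟩ := hrun
      have h6 := hmono2 (r + 1) J (by omega) (by omega) (by omega)
      obtain ⟨e', P', h'⟩ := start hGA hμ hb hM hE (j := j + 1) (by omega) (by omega) hP2
        (by omega) hr2 (hg r (by omega) (by omega)) (by omega)
      exact ⟨e', P', r + 1, h', by omega, fun h => absurd h (by omega), fun _ => hr2⟩
  obtain ⟨e, P, t, hst, hτt, h0, h1⟩ := key q le_rfl
  have hKq : (q + 1) * b = K := by rw [hK]; ring
  rw [hKq] at hst
  have htJ : t ≤ J := by
    rcases Nat.eq_zero_or_pos q with hq | hq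
    · have := h0 hq
      omega
    · have := h1 hq
      omega
  have hrun := runs hGA hμ hM hE (K := K) (k := K) le_rfl hτt (s - 1 - t)
    (fun x hx1 hx2 => ⟨hg x (by omega) (by omega), hs3 (x + 1) (by omega) (by omega)⟩) ⟨P, hst⟩
  rw [show t + (s - 1 - t) = s - 1 by omega] at hrun
  obtain ⟨P2, hP2⟩ := hrun
  refine ⟨s, E, e, P2, hJs, hs2, hs3, hs1.2, ?_, ?_, ?_, ?_, ?_, ?_⟩
  · intro i hi
    have := hP2.s1 i hi
    refine ⟨?_, this.1, this.2.1⟩
    omega
  · intro i hi t' ht1 ht2 hd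
    have h2 : 2 ∣ e i := even_of_mod μ K i (e i) (hM ▸ (hP2.s1 i hi).2.2)
    have h3 := hP2.s2 t' ht1 (by omega)
    have h4 : 2 ∣ P2 t' := h2.trans hd
    rw [Nat.odd_iff] at h3
    omega
  · intro t' ht1 ht2
    exact hP2.s3 t' ht1 (by omega)
  · intro t' ht1 ht2
    exact hP2.s4 t' ht1 (by omega)
  · intro i hi
    have h2 := hP2.s3 τ le_rfl (by omega)
    have h3 := hP2.s6
    have h4 := hP2.s5 i hi
    have h5 : 0 < e i := by
      have := (hP2.s1 i (by omega)).2.1
      omega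
    rw [Nat.div_lt_iff_lt_mul h5]
    have h6 : μ * E < μ * (e i + M) := Nat.mul_lt_mul_of_pos_left h4 (by omega)
    have h7 : μ * (e i + M) = μ * e i + μ * M := by ring
    have h8 : 16 * (μ * M) = E := by rw [hE]; ring
    have h9 : 1 ≤ μ * M := Nat.mul_pos (by omega) hMp
    omega
  · intro j hj1 hj2 i hi1 hi2 t' ht1 ht2
    exact hP2.s7 j hj1 (by rw [← hKq]; exact Nat.mul_le_mul_right _ (by omega)) i hi1 hi2 t' ht1
      (by omega)

end Pool.Agent.Helper69.EW
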